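import Pool.Agent.V5helper87.CM.MolC

/-!
# Job MOL: the number of reflections is at least the sum of the exponents
-/

set_option autoImplicit false
set_option maxHeartbeats 400000

noncomputable section

namespace Pool.Agent.V5helper87.CM

open Matrix Module Filter Topology
open Pool.Agent.Helper477.Sph (tau)
open Pool.Agent.V5helper32.CM (Gl act)

theorem re_inv {c : ℂ} (h1 : ‖c‖ = 1) (h2 : c ≠ 1) : ((1 - c)⁻¹).re = 1 / 2 := by
  have h3 : Complex.normSq c = 1 := by
    rw [Complex.normSq_eq_norm_sq, h1, one_pow]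
  rw [Complex.normSq_apply] at h3
  have h4 : 1 - c.re ≠ 0 := by
    intro h
    have h5 : c.re = 1 := by linarith
    have h6 : c.im = 0 := by
      rw [h5] at h3
      nlinarith [sq_nonneg c.im]
    exact h2 (Complex.ext h5 h6)
  rw [Complex.inv_re, Complex.normSq_apply]
  simp only [Complex.sub_re, Complex.one_re, Complex.sub_im, Complex.one_im, zero_sub]
  have h7 : (1 - c.re) * (1 - c.re) + -c.im * -c.im = 2 * (1 - c.re) := by linarith
  rw [h7]
  field_simp

theorem rank_zero {a : ℕ} (M : Matrix (Fin a) (Fin a) ℂ) (h : M.rank = 0) : M = 0 := by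
  rw [Matrix.rank, Submodule.finrank_eq_zero, LinearMap.range_eq_bot] at h
  have h1 : Matrix.toLin' M = 0 := h
  exact (LinearEquiv.map_eq_zero_iff _).1 h1

variable {a : ℕ} {G : Type} [Group G] [Fintype G] (ρ : G →* Gl a)
  (d : Fin a → ℕ) (hd : ∀ i, 0 < d i)
  (c : G → Fin a → ℂ) (hc : ∀ g i, ‖c g i‖ = 1)

/-- The product over the eigenvalues different from one. -/
def PP (g : G) (x : ℝ) : ℂ :=
  ∏ i ∈ Finset.univ.filter fun i => c g i ≠ 1, (1 - c g i * (x : ℂ))⁻¹

/-- The number of the eigenvalues different from one. -/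
def n2 (g : G) : ℕ := Fintype.card {i // c g i ≠ 1}

omit [Group G] [Fintype G] in
theorem n2_le (g : G) : n2 c g ≤ a := by
  have h := Fintype.card_subtype_le fun i => c g i ≠ 1
  rwa [Fintype.card_fin] at h

omit [Group G] [Fintype G] in
theorem prod_split (g : G) (x : ℝ) :
    ∏ i, (1 - c g i * (x : ℂ))⁻¹ = PP c g x * ((1 - (x : ℂ))⁻¹) ^ (a - n2 c g) := by
  classical
  rw [← Finset.prod_filter_mul_prod_filter_not Finset.univ fun i => c g i ≠ 1]
  congr 1
  rw [Finset.prod_congr rfl (g := fun _ => (1 - (x : ℂ))⁻¹), Finset.prod_const]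
  · congr 1
    have h1 := Finset.card_filter_add_card_filter_not (s := (Finset.univ : Finset (Fin a)))
      (fun i => c g i ≠ 1)
    rw [Finset.card_univ, Fintype.card_fin] at h1
    have h2 : n2 c g = (Finset.univ.filter fun i => c g i ≠ 1).card := by
      rw [n2, Fintype.card_subtype]
    omega
  · intro i hi
    have h1 := (Finset.mem_filter.1 hi).2
    rw [not_not] at h1
    rw [h1, one_mul]

include hd in
omit [Group G] [Fintype G] in
theorem left_ge (ha : 0 < a) {x : ℝ} (h0 : 0 ≤ x) (h1 : x < 1) :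
    (1 - x)⁻¹ + ∑ i, x ^ d i * (((d i : ℝ) - 1) / 2) ≤
      (1 - x) ^ (a - 1) * ((∏ i, (d i : ℝ)) * ∏ i, (1 - x ^ d i)⁻¹) := by
  have hx : 0 < 1 - x := by linarith
  have h2 := one_add_sum_le Finset.univ
    (fun i => (1 - x) * (x ^ d i * (((d i : ℝ) - 1) / 2)))
    (fun i => (d i : ℝ) * (1 - x) * (1 - x ^ d i)⁻¹)
    (fun i => mul_nonneg hx.le (mul_nonneg (pow_nonneg h0 _) (by
      have : (1 : ℝ) ≤ d i := by exact_mod_cast hd i
      linarith)))
    (fun i => ratio_ge (hd i) h0 h1)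
  rw [← Finset.mul_sum, Finset.prod_mul_distrib, Finset.prod_mul_distrib, Finset.prod_const,
    Finset.card_univ, Fintype.card_fin] at h2
  have h3 := mul_le_mul_of_nonneg_left h2 (inv_nonneg.2 hx.le)
  have e1 : (1 - x)⁻¹ * (1 + (1 - x) * ∑ i, x ^ d i * (((d i : ℝ) - 1) / 2)) =
      (1 - x)⁻¹ + ∑ i, x ^ d i * (((d i : ℝ) - 1) / 2) := by
    rw [mul_add, mul_one, ← mul_assoc, inv_mul_cancel₀ hx.ne', one_mul]
  have e2 : (1 - x)⁻¹ * ((∏ i, (d i : ℝ)) * (1 - x) ^ a * ∏ i, (1 - x ^ d i)⁻¹) =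
      (1 - x) ^ (a - 1) * ((∏ i, (d i : ℝ)) * ∏ i, (1 - x ^ d i)⁻¹) := by
    have e3 : (1 - x) ^ a = (1 - x) * (1 - x) ^ (a - 1) := by
      rw [← pow_succ', Nat.sub_add_cancel ha]
    rw [e3]
    field_simp
  rw [e1, e2] at h3
  exact h3

omit [Group G] [Fintype G] in
theorem right_eq {g : G} (hg : 1 ≤ n2 c g) {x : ℝ} (h1 : x < 1) :
    ((1 - x : ℝ) : ℂ) ^ (a - 1) * ∏ i, (1 - c g i * (x : ℂ))⁻¹ =
      ((1 - x : ℝ) : ℂ) ^ (n2 c g - 1) * PP c g x := by
  have hx : ((1 - x : ℝ) : ℂ) ≠ 0 := by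
    exact_mod_cast (by linarith : (1 - x : ℝ) ≠ 0)
  have h2 := n2_le c g
  have h3 : (1 - (x : ℂ)) = ((1 - x : ℝ) : ℂ) := by push_cast; rfl
  have h4 : a - 1 = (n2 c g - 1) + (a - n2 c g) := by omega
  rw [prod_split, h3, h4, pow_add, inv_pow]
  field_simp

omit [Group G] [Fintype G] in
theorem right_eq_one {g : G} (ha : 0 < a) (hg : n2 c g = 0) {x : ℝ} (h1 : x < 1) :
    ((1 - x : ℝ) : ℂ) ^ (a - 1) * ∏ i, (1 - c g i * (x : ℂ))⁻¹ = (((1 - x)⁻¹ : ℝ) : ℂ) := by
  have hx : ((1 - x : ℝ) : ℂ) ≠ 0 := by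
    exact_mod_cast (by linarith : (1 - x : ℝ) ≠ 0)
  have hc1 : ∀ i, c g i = 1 := by
    intro i
    by_contra h
    rw [n2, Fintype.card_eq_zero_iff] at hg
    exact hg.false ⟨i, h⟩
  have h3 : (1 - (x : ℂ)) = ((1 - x : ℝ) : ℂ) := by push_cast; rfl
  have h4 : ∏ i, (1 - c g i * (x : ℂ))⁻¹ = (((1 - x : ℝ) : ℂ)⁻¹) ^ a := by
    rw [Finset.prod_congr rfl (g := fun _ => ((1 - x : ℝ) : ℂ)⁻¹), Finset.prod_const,
      Finset.card_univ, Fintype.card_fin]
    intro i _
    rw [hc1, one_mul, h3]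
  have h5 : ((1 - x : ℝ) : ℂ) ^ a = ((1 - x : ℝ) : ℂ) * ((1 - x : ℝ) : ℂ) ^ (a - 1) := by
    rw [← pow_succ', Nat.sub_add_cancel ha]
  rw [h4, inv_pow, h5, Complex.ofReal_inv]
  field_simp

omit [Group G] [Fintype G] in
theorem tendsto_term (g : G) :
    Tendsto (fun x : ℝ => (((1 - x : ℝ) : ℂ) ^ (n2 c g - 1) * PP c g x).re) (𝓝[<] 1)
      (𝓝 (((0 : ℂ) ^ (n2 c g - 1) * PP c g 1).re)) := by
  have h1 : ContinuousAt (fun x : ℝ => (((1 - x : ℝ) : ℂ) ^ (n2 c g - 1) * PP c g x).re) 1 := by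
    refine Complex.continuous_re.continuousAt.comp ?_
    refine ContinuousAt.mul ?_ ?_
    · exact (Complex.continuous_ofReal.comp (continuous_const.sub continuous_id)).continuousAt.pow _
    · unfold PP
      refine tendsto_finset_prod _ fun i hi => ?_
      have h2 := (Finset.mem_filter.1 hi).2
      refine ContinuousAt.inv₀ ?_ ?_
      · exact (continuous_const.sub (continuous_const.mul Complex.continuous_ofReal)).continuousAt
      · rw [Complex.ofReal_one, mul_one, sub_ne_zero]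
        exact h2.symm
  have h3 := h1.tendsto
  simp only [sub_self, Complex.ofReal_zero] at h3
  exact h3.mono_left nhdsWithin_le_nhds

include hc in
omit [Group G] [Fintype G] in
theorem value_term {g : G} (hg : 1 ≤ n2 c g) :
    ((0 : ℂ) ^ (n2 c g - 1) * PP c g 1).re = if n2 c g = 1 then 1 / 2 else 0 := by
  classical
  by_cases h : n2 c g = 1
  · rw [if_pos h, h, Nat.sub_self, pow_zero, one_mul, PP]
    have h1 : (Finset.univ.filter fun i => c g i ≠ 1).card = 1 := by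
      rw [← h, n2, Fintype.card_subtype]
    obtain ⟨i, hi⟩ := Finset.card_eq_one.1 h1
    have h2 : c g i ≠ 1 := by
      have h3 : i ∈ Finset.univ.filter fun i => c g i ≠ 1 := by
        rw [hi]
        exact Finset.mem_singleton_self i
      exact (Finset.mem_filter.1 h3).2
    rw [hi, Finset.prod_singleton, Complex.ofReal_one, mul_one]
    exact re_inv (hc g i) h2
  · rw [if_neg h, zero_pow (by omega), zero_mul, Complex.zero_re]

theorem t_MOL : Pool.Agent.V5helper32.CM.S_MOL := by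
  classical
  intro a G _ _ ρ hρ f d hf hd hfi hind hprod
  rcases Nat.eq_zero_or_pos a with rfl | ha
  · rw [Finset.univ_eq_empty, Finset.sum_empty]
    exact Nat.zero_le _
  choose c hc hτ hr using exists_eig ρ
  have hn1 : n2 c 1 = 0 := by
    have h1 := hr 1
    rw [map_one, Units.val_one, sub_self, Matrix.rank_zero] at h1
    exact h1.symm
  have hn : ∀ g : G, g ≠ 1 → 1 ≤ n2 c g := by
    intro g hg
    by_contra h
    have h1 : n2 c g = 0 := by omega
    have h2 := hr g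
    have h3 : ((ρ g).val - 1).rank = 0 := h2.trans h1
    have h4 := sub_eq_zero.1 (rank_zero _ h3)
    apply hg
    apply hρ
    rw [map_one]
    exact Units.ext h4
  -- the inequality for `x < 1`
  have key : ∀ x : ℝ, 0 ≤ x → x < 1 → ∑ i, x ^ d i * (((d i : ℝ) - 1) / 2) ≤
      ∑ g ∈ Finset.univ.erase (1 : G),
        (((1 - x : ℝ) : ℂ) ^ (n2 c g - 1) * PP c g x).re := by
    intro x h0 h1
    have h2 := main_ineq ρ f d hf hd hfi hind c hc hτ h0 h1
    have h3 : (Fintype.card G : ℝ) = ∏ i, (d i : ℝ) := by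
      rw [← hprod, Nat.cast_prod]
    rw [h3] at h2
    have hx : 0 < 1 - x := by linarith
    have h4 := mul_le_mul_of_nonneg_left h2 (pow_nonneg hx.le (a - 1))
    have h5 := (left_ge d hd ha h0 h1).trans h4
    have h6 : (1 - x) ^ (a - 1) * (∑ g, ∏ i, (1 - c g i * (x : ℂ))⁻¹).re =
        (1 - x)⁻¹ + ∑ g ∈ Finset.univ.erase (1 : G),
          (((1 - x : ℝ) : ℂ) ^ (n2 c g - 1) * PP c g x).re := by
      have h7 : (1 - x) ^ (a - 1) * (∑ g, ∏ i, (1 - c g i * (x : ℂ))⁻¹).re =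
          (∑ g, ((1 - x : ℝ) : ℂ) ^ (a - 1) * ∏ i, (1 - c g i * (x : ℂ))⁻¹).re := by
        rw [← Finset.mul_sum, ← Complex.ofReal_pow, Complex.re_ofReal_mul]
      rw [h7, ← Finset.add_sum_erase _ _ (Finset.mem_univ (1 : G)), Complex.add_re,
        right_eq_one c ha hn1 h1, Complex.ofReal_re, Complex.re_sum]
      congr 1
      refine Finset.sum_congr rfl fun g hg => ?_
      rw [right_eq c (hn g (Finset.ne_of_mem_erase hg)) h1]
    rw [h6] at h5
    linarith
  -- the limit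
  have t1 : Tendsto (fun x : ℝ => ∑ i, x ^ d i * (((d i : ℝ) - 1) / 2)) (𝓝[<] 1)
      (𝓝 (∑ i, (1 : ℝ) ^ d i * (((d i : ℝ) - 1) / 2))) := by
    refine tendsto_finset_sum _ fun i _ => ?_
    have h1 : ContinuousAt (fun x : ℝ => x ^ d i * (((d i : ℝ) - 1) / 2)) 1 :=
      ((continuous_pow _).mul continuous_const).continuousAt
    exact h1.tendsto.mono_left nhdsWithin_le_nhds
  have t2 : Tendsto (fun x : ℝ => ∑ g ∈ Finset.univ.erase (1 : G),
      (((1 - x : ℝ) : ℂ) ^ (n2 c g - 1) * PP c g x).re) (𝓝[<] 1)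
      (𝓝 (∑ g ∈ Finset.univ.erase (1 : G), (((0 : ℂ) ^ (n2 c g - 1) * PP c g 1).re))) :=
    tendsto_finset_sum _ fun g _ => tendsto_term c g
  have hev : ∀ᶠ x : ℝ in 𝓝[<] 1, ∑ i, x ^ d i * (((d i : ℝ) - 1) / 2) ≤
      ∑ g ∈ Finset.univ.erase (1 : G),
        (((1 - x : ℝ) : ℂ) ^ (n2 c g - 1) * PP c g x).re := by
    have h1 : Set.Ico (0 : ℝ) 1 ∈ 𝓝[<] (1 : ℝ) := Ico_mem_nhdsLT (by norm_num)
    filter_upwards [h1] with x hx
    exact key x hx.1 hx.2
  have hlim := le_of_tendsto_of_tendsto t1 t2 hev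
  have h8 : (∑ g ∈ Finset.univ.erase (1 : G), (((0 : ℂ) ^ (n2 c g - 1) * PP c g 1).re)) =
      (Nat.card {g : G // ((ρ g).val - 1).rank = 1} : ℝ) / 2 := by
    rw [Finset.sum_congr rfl fun g hg => value_term c hc (hn g (Finset.ne_of_mem_erase hg)),
      ← Finset.sum_filter, Finset.sum_const, nsmul_eq_mul, Nat.card_eq_fintype_card,
      Fintype.card_subtype]
    have h9 : (Finset.univ.erase (1 : G)).filter (fun g => n2 c g = 1) =
        Finset.univ.filter fun g => ((ρ g).val - 1).rank = 1 := by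
      ext g
      rw [Finset.mem_filter, Finset.mem_filter, Finset.mem_erase]
      have h10 : ((ρ g).val - 1).rank = n2 c g := hr g
      rw [h10]
      constructor
      · rintro ⟨_, h⟩
        exact ⟨Finset.mem_univ _, h⟩
      · rintro ⟨_, h⟩
        refine ⟨⟨?_, Finset.mem_univ _⟩, h⟩
        rintro rfl
        rw [hn1] at h
        exact absurd h (by norm_num)
    rw [h9]
    ring
  have h11 : (∑ i, (1 : ℝ) ^ d i * (((d i : ℝ) - 1) / 2)) = ((∑ i, (d i - 1) : ℕ) : ℝ) / 2 := by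
    rw [Nat.cast_sum, Finset.sum_div]
    refine Finset.sum_congr rfl fun i _ => ?_
    rw [one_pow, one_mul, Nat.cast_sub (hd i), Nat.cast_one]
  rw [h8, h11] at hlim
  have h12 : ((∑ i, (d i - 1) : ℕ) : ℝ) ≤ (Nat.card {g : G // ((ρ g).val - 1).rank = 1} : ℝ) := by
    linarith
  exact_mod_cast h12

end Pool.Agent.V5helper87.CM

end
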