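import Pool.Agent.Helper477.Sph.Mol2
import Pool.Agent.V5helper32.CM.Stm5

/-!
# Job MOL: the dimensions of the spaces of invariants
-/

set_option autoImplicit false

noncomputable section

namespace Pool.Agent.V5helper87.CM

open MvPolynomial Matrix Module
open Pool.Agent.Helper477.Sph (TT TT_X TT_C TT_mul TT_one TT_homog I mem_I expand monomial_homog Mk
  TT_monomial Mk_mul Mk_one tau coeff_tau tau_diag diag_of_pow_eq_one trace_Mk_conj)
open Pool.Agent.V5helper32.CM (Gl act)

variable {a : ℕ} {G : Type} [Group G] (ρ : G →* Gl a)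

theorem act_eq (g : Gl a) (p : MvPolynomial (Fin a) ℂ) : act g p = TT (g⁻¹).val p := rfl

/-- The representation on the homogeneous polynomials of degree `k`. -/
def σ (k : ℕ) : Representation ℂ G (I a k → ℂ) where
  toFun g := Matrix.toLin' (Mk k ((ρ g)⁻¹).val)
  map_one' := by
    rw [map_one, inv_one, Units.val_one, Mk_one, Matrix.toLin'_one]
    rfl
  map_mul' g h := by
    rw [map_mul, _root_.mul_inv_rev, Units.val_mul, Mk_mul, Matrix.toLin'_mul]
    rfl

/-- The vector of coefficients. -/
def cv (k : ℕ) : MvPolynomial (Fin a) ℂ →ₗ[ℂ] (I a k → ℂ) where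
  toFun p s := coeff s.1 p
  map_add' p q := by
    funext s
    exact coeff_add _ _ _
  map_smul' c p := by
    funext s
    exact coeff_smul _ _ _

theorem cv_apply (k : ℕ) (p : MvPolynomial (Fin a) ℂ) (s : I a k) : cv k p s = coeff s.1 p := rfl

theorem cv_inj (k : ℕ) {p : MvPolynomial (Fin a) ℂ} (hp : p.IsHomogeneous k) (h : cv k p = 0) :
    p = 0 := by
  rw [expand hp]
  refine Finset.sum_eq_zero fun s _ => ?_
  have h1 : coeff s.1 p = 0 := congrFun h s
  rw [h1, map_zero]

theorem cv_act (k : ℕ) (g : G) {p : MvPolynomial (Fin a) ℂ} (hp : p.IsHomogeneous k) :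
    cv k (act (ρ g) p) = σ ρ k g (cv k p) := by
  classical
  funext r
  have h1 : act (ρ g) p = ∑ s : I a k, ∑ r : I a k,
      monomial r.1 (Mk k ((ρ g)⁻¹).val r s * coeff s.1 p) := by
    rw [act_eq]
    conv_lhs => rw [expand hp]
    rw [map_sum]
    exact Finset.sum_congr rfl fun s _ => TT_monomial _ _ _
  rw [h1, cv_apply, coeff_sum]
  show _ = (Matrix.toLin' (Mk k ((ρ g)⁻¹).val)) (cv k p) r
  rw [Matrix.toLin'_apply, Matrix.mulVec, dotProduct]
  refine Finset.sum_congr rfl fun s _ => ?_
  rw [coeff_sum, Finset.sum_eq_single r]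
  · rw [coeff_monomial, if_pos rfl, cv_apply]
  · intro b _ hb
    rw [coeff_monomial, if_neg]
    intro h
    exact hb (Subtype.ext h)
  · intro h
    exact absurd (Finset.mem_univ _) h

/-- The dimension of the space of invariants of degree `k`. -/
def dimInv (k : ℕ) : ℕ := finrank ℂ (σ ρ k).invariants

theorem dimInv_eq [Fintype G] (k : ℕ) :
    ((Fintype.card G : ℂ))⁻¹ * ∑ g : G, (Mk k ((ρ g)⁻¹).val).trace = dimInv ρ k := by
  have h0 : (Nat.card G : ℂ) ≠ 0 := Nat.cast_ne_zero.2 Nat.card_pos.ne'
  haveI := invertibleOfNonzero h0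
  have h1 := Representation.card_inv_mul_sum_char_eq_finrank (σ ρ k)
  rw [dimInv, ← h1, Nat.card_eq_fintype_card]
  congr 1
  refine Finset.sum_congr rfl fun g _ => ?_
  show _ = LinearMap.trace ℂ _ (Matrix.toLin' (Mk k ((ρ g)⁻¹).val))
  rw [Matrix.trace_toLin'_eq]

section Count

variable (f : Fin a → MvPolynomial (Fin a) ℂ) (d : Fin a → ℕ)
  (hf : ∀ i, (f i).IsHomogeneous (d i)) (hd : ∀ i, 0 < d i)
  (hfi : ∀ i g, act (ρ g) (f i) = f i) (hind : AlgebraicIndependent ℂ f)

/-- The exponents that are multiples of the degrees. -/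
abbrev J (k : ℕ) : Type := {l : I a k // ∀ i, d i ∣ l.1 i}

/-- The exponents. -/
def expo {k : ℕ} (l : J d k) : Fin a →₀ ℕ := Finsupp.equivFunOnFinite.symm fun i => l.1.1 i / d i

theorem expo_apply {k : ℕ} (l : J d k) (i : Fin a) : expo d l i = l.1.1 i / d i := rfl

include hd in
theorem expo_mul {k : ℕ} (l : J d k) (i : Fin a) : d i * expo d l i = l.1.1 i := by
  rw [expo_apply]
  exact Nat.mul_div_cancel' (l.2 i)

include hd in
theorem expo_inj (k : ℕ) : Function.Injective (expo d : J d k → _) := by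
  intro l l' h
  refine Subtype.ext (Subtype.ext (Finsupp.ext fun i => ?_))
  rw [← expo_mul d hd l i, h, expo_mul d hd l' i]

/-- The monomials in the basic invariants. -/
def mon {k : ℕ} (l : J d k) : MvPolynomial (Fin a) ℂ := aeval f (monomial (expo d l) (1 : ℂ))

theorem mon_eq {k : ℕ} (l : J d k) : mon f d l = ∏ i, f i ^ expo d l i := by
  rw [mon, aeval_monomial, map_one, one_mul, Finsupp.prod_fintype]
  intro i
  exact pow_zero _

include hf hd in
theorem mon_homog {k : ℕ} (l : J d k) : (mon f d l).IsHomogeneous k := by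
  rw [mon_eq]
  have h1 : ∑ i, d i * expo d l i = k := by
    rw [Finset.sum_congr rfl fun i _ => expo_mul d hd l i]
    exact (mem_I l.1.1).1 l.1.2
  have h2 : (∏ i, f i ^ expo d l i).IsHomogeneous (∑ i, d i * expo d l i) :=
    IsHomogeneous.prod _ _ _ fun i _ => (hf i).pow _
  rwa [h1] at h2

include hfi in
theorem mon_inv {k : ℕ} (l : J d k) (g : G) : act (ρ g) (mon f d l) = mon f d l := by
  rw [mon_eq, map_prod]
  refine Finset.prod_congr rfl fun i _ => ?_
  rw [map_pow, hfi]

include hf hd hind in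
theorem mon_lin (k : ℕ) : LinearIndependent ℂ fun l : J d k => cv k (mon f d l) := by
  have h1 : LinearIndependent ℂ fun s : Fin a →₀ ℕ => aeval f (monomial s (1 : ℂ)) := by
    have h2 := (MvPolynomial.basisMonomials (Fin a) ℂ).linearIndependent
    have h3 := h2.map' (aeval f : MvPolynomial (Fin a) ℂ →ₐ[ℂ] MvPolynomial (Fin a) ℂ).toLinearMap
      (LinearMap.ker_eq_bot.2 hind)
    exact h3
  have h4 : LinearIndependent ℂ fun l : J d k => mon f d l := h1.comp _ (expo_inj d hd k)
  refine h4.map_injOn (cv k) ?_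
  have h5 : Submodule.span ℂ (Set.range fun l : J d k => mon f d l) ≤
      homogeneousSubmodule (Fin a) ℂ k := by
    rw [Submodule.span_le]
    rintro _ ⟨l, rfl⟩
    exact mon_homog f d hf hd l
  intro p hp q hq hpq
  have h6 : (p - q).IsHomogeneous k :=
    (mem_homogeneousSubmodule k _).1 (Submodule.sub_mem _ (h5 hp) (h5 hq))
  exact sub_eq_zero.1 (cv_inj k h6 (by rw [map_sub, sub_eq_zero]; exact hpq))

include hf hd hfi hind in
/-- There are at least as many invariants as monomials in the basic invariants. -/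
theorem card_le_dimInv (k : ℕ) : Fintype.card (J d k) ≤ dimInv ρ k := by
  let w : J d k → (σ ρ k).invariants := fun l => ⟨cv k (mon f d l), by
    intro g
    rw [← cv_act ρ k g (mon_homog f d hf hd l), mon_inv ρ f d hfi]⟩
  have h1 : LinearIndependent ℂ w := by
    refine LinearIndependent.of_comp (Submodule.subtype _) ?_
    exact mon_lin f d hf hd hind k
  exact h1.fintype_card_le_finrank

/-- The series of the degree `e`. -/
def gs (e : ℕ) : PowerSeries ℂ := PowerSeries.mk fun j => if e ∣ j then 1 else 0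

theorem coeff_gs (k : ℕ) :
    PowerSeries.coeff k (∏ i, gs (d i)) = (Fintype.card (J d k) : ℂ) := by
  classical
  rw [PowerSeries.coeff_prod, Fintype.card_subtype, Finset.card_filter, Nat.cast_sum]
  rw [← Finset.sum_coe_sort (Finset.finsuppAntidiag (Finset.univ : Finset (Fin a)) k)]
  refine Finset.sum_congr rfl fun l _ => ?_
  rw [Nat.cast_ite, Nat.cast_one, Nat.cast_zero]
  simp only [gs, PowerSeries.coeff_mk]
  rw [Finset.prod_ite_zero]
  simp

end Count

end Pool.Agent.V5helper87.CM

end
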