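import Pool.Agent.V5helper87.CM.MolA

/-!
# Job MOL: values of power series
-/

set_option autoImplicit false
set_option maxHeartbeats 400000

noncomputable section

namespace Pool.Agent.V5helper87.CM

open Matrix Module
open Pool.Agent.Helper477.Sph (TT Mk Mk_mul Mk_one tau coeff_tau tau_diag diag_of_pow_eq_one
  trace_Mk_conj)
open Pool.Agent.V5helper32.CM (Gl act)

/-- The power series `p` converges absolutely at `x` and has the value `s`. -/
structure Ev (p : PowerSeries ℂ) (x s : ℂ) : Prop where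
  summable : Summable fun k => ‖PowerSeries.coeff k p * x ^ k‖
  sum : ∑' k, PowerSeries.coeff k p * x ^ k = s

theorem Ev.hasSum {p : PowerSeries ℂ} {x s : ℂ} (h : Ev p x s) :
    HasSum (fun k => PowerSeries.coeff k p * x ^ k) s := by
  have h1 := h.summable.of_norm.hasSum
  rwa [h.sum] at h1

theorem Ev.one (x : ℂ) : Ev 1 x 1 := by
  have h1 : ∀ k, k ≠ 0 → PowerSeries.coeff k (1 : PowerSeries ℂ) * x ^ k = 0 := by
    intro k hk
    rw [PowerSeries.coeff_one, if_neg hk, zero_mul]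
  refine ⟨summable_of_ne_finset_zero (s := {0}) ?_, ?_⟩
  · intro k hk
    rw [h1 k (by simpa using hk), norm_zero]
  · rw [tsum_eq_single 0 h1]
    simp

theorem Ev.mul {p q : PowerSeries ℂ} {x s t : ℂ} (hp : Ev p x s) (hq : Ev q x t) :
    Ev (p * q) x (s * t) := by
  obtain ⟨f, hf⟩ : ∃ f : ℕ → ℂ, f = fun k => PowerSeries.coeff k p * x ^ k := ⟨_, rfl⟩
  obtain ⟨g, hg⟩ : ∃ g : ℕ → ℂ, g = fun k => PowerSeries.coeff k q * x ^ k := ⟨_, rfl⟩
  have h1 : (fun k => PowerSeries.coeff k (p * q) * x ^ k) = fun k =>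
      ∑ kl ∈ Finset.HasAntidiagonal.antidiagonal k, f kl.1 * g kl.2 := by
    funext k
    rw [PowerSeries.coeff_mul, Finset.sum_mul]
    refine Finset.sum_congr rfl fun kl hkl => ?_
    rw [← Finset.HasAntidiagonal.mem_antidiagonal.1 hkl, pow_add, hf, hg]
    ring
  have sf : Summable fun k => ‖f k‖ := by
    rw [hf]
    exact hp.summable
  have sg : Summable fun k => ‖g k‖ := by
    rw [hg]
    exact hq.summable
  have tf : ∑' k, f k = s := by
    rw [hf]
    exact hp.sum
  have tg : ∑' k, g k = t := by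
    rw [hg]
    exact hq.sum
  have s1 := summable_norm_sum_mul_antidiagonal_of_summable_norm sf sg
  have s2 := tsum_mul_tsum_eq_tsum_sum_antidiagonal_of_summable_norm sf sg
  refine ⟨?_, ?_⟩
  · have h2 : (fun k => ‖PowerSeries.coeff k (p * q) * x ^ k‖) = fun k =>
        ‖∑ kl ∈ Finset.HasAntidiagonal.antidiagonal k, f kl.1 * g kl.2‖ := by
      funext k
      exact congrArg norm (congrFun h1 k)
    rw [h2]
    exact s1
  · rw [h1, ← s2, tf, tg]

theorem Ev.prod {ι : Type} (S : Finset ι) (p : ι → PowerSeries ℂ) (s : ι → ℂ) {x : ℂ}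
    (h : ∀ i ∈ S, Ev (p i) x (s i)) : Ev (∏ i ∈ S, p i) x (∏ i ∈ S, s i) := by
  classical
  induction S using Finset.induction_on with
  | empty =>
    rw [Finset.prod_empty, Finset.prod_empty]
    exact Ev.one x
  | insert j S hj ih =>
    rw [Finset.prod_insert hj, Finset.prod_insert hj]
    exact (h j (Finset.mem_insert_self _ _)).mul
      (ih fun i hi => h i (Finset.mem_insert_of_mem hi))

theorem Ev.geom {c x : ℂ} (h : ‖c * x‖ < 1) :
    Ev (PowerSeries.mk fun k => c ^ k) x (1 - c * x)⁻¹ := by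
  refine ⟨?_, ?_⟩
  · simp only [PowerSeries.coeff_mk, ← mul_pow, norm_pow]
    exact summable_geometric_of_lt_one (norm_nonneg _) h
  · simp only [PowerSeries.coeff_mk, ← mul_pow]
    exact tsum_geometric_of_norm_lt_one h

theorem Ev.gs {e : ℕ} (he : 0 < e) {x : ℂ} (h : ‖x‖ < 1) : Ev (gs e) x (1 - x ^ e)⁻¹ := by
  have hinj : Function.Injective fun j : ℕ => e * j := fun i j hij =>
    Nat.eq_of_mul_eq_mul_left he hij
  have h0 : ‖x ^ e‖ < 1 := by
    rw [norm_pow]
    exact pow_lt_one₀ (norm_nonneg _) h he.ne'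
  have h1 : ∀ k ∉ Set.range (fun j : ℕ => e * j), PowerSeries.coeff k (CM.gs e) * x ^ k = 0 := by
    intro k hk
    have h2 : ¬ e ∣ k := by
      rintro ⟨j, rfl⟩
      exact hk ⟨j, rfl⟩
    rw [CM.gs, PowerSeries.coeff_mk, if_neg h2, zero_mul]
  have h3 : (fun k => PowerSeries.coeff k (CM.gs e) * x ^ k) ∘ (fun j : ℕ => e * j) =
      fun j => (x ^ e) ^ j := by
    funext j
    simp only [Function.comp_apply, CM.gs, PowerSeries.coeff_mk]
    rw [if_pos (Dvd.intro j rfl), one_mul, pow_mul]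
  refine ⟨?_, ?_⟩
  · have h4 := hinj.summable_iff (f := fun k => ‖PowerSeries.coeff k (CM.gs e) * x ^ k‖)
      (fun k hk => by rw [h1 k hk, norm_zero])
    rw [← h4]
    have h5 : (fun k => ‖PowerSeries.coeff k (CM.gs e) * x ^ k‖) ∘ (fun j : ℕ => e * j) =
        fun j => ‖x ^ e‖ ^ j := by
      funext j
      rw [← norm_pow]
      exact congrArg norm (congrFun h3 j)
    rw [h5]
    exact summable_geometric_of_lt_one (norm_nonneg _) h0
  · have h4 := hinj.hasSum_iff (f := fun k => PowerSeries.coeff k (CM.gs e) * x ^ k)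
      (a := (1 - x ^ e)⁻¹) h1
    rw [h3] at h4
    exact (h4.1 (hasSum_geometric_of_norm_lt_one h0)).tsum_eq

variable {a : ℕ} {G : Type} [Group G] [Fintype G] (ρ : G →* Gl a)

theorem rank_eq (g : G) {B B' : Matrix (Fin a) (Fin a) ℂ} {c : Fin a → ℂ} (h1 : B' * B = 1)
    (h2 : B * B' = 1) (h3 : ((ρ g)⁻¹).val = B * Matrix.diagonal c * B') :
    ((ρ g).val - 1).rank = Fintype.card {i // c i ≠ 1} := by
  classical
  have e1 : ((ρ g).val - 1) = (ρ g).val * (-(((ρ g)⁻¹).val - 1)) := by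
    rw [mul_neg, mul_sub, mul_one, ← Units.val_mul, mul_inv_cancel, Units.val_one, neg_sub]
  have e2 : -(((ρ g)⁻¹).val - 1) = B * Matrix.diagonal (fun i => 1 - c i) * B' := by
    have e3 : Matrix.diagonal (fun i => 1 - c i) = 1 - Matrix.diagonal c := by
      rw [← Matrix.diagonal_one, Matrix.diagonal_sub]
    rw [h3, e3, mul_sub, sub_mul, mul_one, h2, neg_sub]
  have u1 : IsUnit (ρ g).val.det := by
    rw [← Matrix.isUnit_iff_isUnit_det]
    exact (ρ g).isUnit
  have u2 : IsUnit B.det := by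
    rw [← Matrix.isUnit_iff_isUnit_det]
    exact ⟨⟨B, B', h2, h1⟩, rfl⟩
  have u3 : IsUnit B'.det := by
    rw [← Matrix.isUnit_iff_isUnit_det]
    exact ⟨⟨B', B, h1, h2⟩, rfl⟩
  rw [e1, e2, Matrix.rank_mul_eq_right_of_isUnit_det _ _ u1,
    Matrix.rank_mul_eq_left_of_isUnit_det _ _ u3, Matrix.rank_mul_eq_right_of_isUnit_det _ _ u2,
    Matrix.rank_diagonal]
  refine Fintype.card_congr (Equiv.subtypeEquivRight fun i => ?_)
  rw [ne_eq, sub_eq_zero, eq_comm]

/-- The eigenvalues. -/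
theorem exists_eig (g : G) : ∃ c : Fin a → ℂ, (∀ i, ‖c i‖ = 1) ∧
    tau ((ρ g)⁻¹).val = ∏ i, PowerSeries.mk (fun k => c i ^ k) ∧
    ((ρ g).val - 1).rank = Fintype.card {i // c i ≠ 1} := by
  have h0 : ((ρ g)⁻¹).val ^ Fintype.card G = 1 := by
    rw [← Units.val_pow_eq_pow_val, inv_pow, ← map_pow, pow_card_eq_one, map_one, inv_one,
      Units.val_one]
  obtain ⟨B, B', c, h1, h2, h3, h4⟩ := diag_of_pow_eq_one _ _ Fintype.card_pos h0
  refine ⟨c, ?_, ?_, rank_eq ρ g h1 h2 h3⟩
  · intro i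
    obtain ⟨v, hv, hv'⟩ := h4 i
    have h5 : ∀ n : ℕ, (((ρ g)⁻¹).val ^ n).mulVec v = c i ^ n • v := by
      intro n
      induction n with
      | zero => simp
      | succ n ih =>
        rw [pow_succ, ← Matrix.mulVec_mulVec, hv', Matrix.mulVec_smul, ih, smul_smul, pow_succ,
          mul_comm]
    have h6 := h5 (Fintype.card G)
    rw [h0, Matrix.one_mulVec] at h6
    have h7 : (1 - c i ^ Fintype.card G) • v = 0 := by
      rw [sub_smul, one_smul, ← h6, sub_self]
    have h8 : c i ^ Fintype.card G = 1 := by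
      rcases smul_eq_zero.1 h7 with h | h
      · exact (sub_eq_zero.1 h).symm
      · exact absurd h hv
    have h9 := congrArg norm h8
    rw [norm_pow, norm_one] at h9
    exact (pow_eq_one_iff_of_nonneg (norm_nonneg _) Fintype.card_ne_zero).1 h9
  · rw [h3, ← tau_diag]
    refine PowerSeries.ext fun k => ?_
    rw [coeff_tau, coeff_tau]
    exact trace_Mk_conj k B _ B' h1

end Pool.Agent.V5helper87.CM

end
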