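import Pool.Agent.V5helper87.CM.MolB

/-!
# Job MOL: the inequality
-/

set_option autoImplicit false
set_option maxHeartbeats 400000

noncomputable section

namespace Pool.Agent.V5helper87.CM

open Matrix Module
open Pool.Agent.Helper477.Sph (TT Mk Mk_mul Mk_one tau coeff_tau tau_diag diag_of_pow_eq_one
  trace_Mk_conj)
open Pool.Agent.V5helper32.CM (Gl act)

theorem one_add_sum_le {ι : Type} (S : Finset ι) (y z : ι → ℝ) (hy : ∀ i, 0 ≤ y i)
    (hz : ∀ i, 1 + y i ≤ z i) : 1 + ∑ i ∈ S, y i ≤ ∏ i ∈ S, z i := by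
  classical
  induction S using Finset.induction_on with
  | empty => simp
  | insert j S hj ih =>
    rw [Finset.sum_insert hj, Finset.prod_insert hj]
    have h1 : 0 ≤ ∑ i ∈ S, y i := Finset.sum_nonneg fun i _ => hy i
    have h2 : 0 ≤ z j := by linarith [hy j, hz j]
    calc 1 + (y j + ∑ i ∈ S, y i) ≤ (1 + y j) * (1 + ∑ i ∈ S, y i) := by
          nlinarith [mul_nonneg (hy j) h1]
      _ ≤ z j * ∏ i ∈ S, z i := mul_le_mul (hz j) ih (by linarith) h2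

theorem ratio_ge {d : ℕ} (hd : 0 < d) {x : ℝ} (h0 : 0 ≤ x) (h1 : x < 1) :
    1 + (1 - x) * (x ^ d * (((d : ℝ) - 1) / 2)) ≤ d * (1 - x) * (1 - x ^ d)⁻¹ := by
  have hd1 : (1 : ℝ) ≤ d := by exact_mod_cast hd
  set s : ℝ := ∑ k ∈ Finset.range d, x ^ k with hs
  have e1 : (1 - x) * s = 1 - x ^ d := mul_neg_geom_sum x d
  have hs0 : 0 < s := by
    have h2 : x ^ 0 ≤ s := Finset.single_le_sum (f := fun k => x ^ k) (fun k _ => pow_nonneg h0 k)
      (Finset.mem_range.2 hd)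
    rw [pow_zero] at h2
    linarith
  have hx : 0 < 1 - x := by linarith
  have hk : ∀ k ∈ Finset.range d, x ^ k ≤ 1 - (1 - x) * x ^ d * k := by
    intro k hk
    have hk' := Finset.mem_range.1 hk
    have h3 : (1 - x) * ∑ j ∈ Finset.range k, x ^ j = 1 - x ^ k := mul_neg_geom_sum x k
    have h4 : (k : ℝ) * x ^ d ≤ ∑ j ∈ Finset.range k, x ^ j := by
      have h5 := Finset.card_nsmul_le_sum (Finset.range k) (fun j => x ^ j) (x ^ d) fun j hj =>
        pow_le_pow_of_le_one h0 h1.le (by have := Finset.mem_range.1 hj; omega)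
      rwa [Finset.card_range, nsmul_eq_mul] at h5
    have h6 := mul_le_mul_of_nonneg_left h4 hx.le
    nlinarith
  have hsum : s ≤ d - (1 - x) * x ^ d * (d * (d - 1) / 2) := by
    have h3 := Finset.sum_le_sum hk
    rw [Finset.sum_sub_distrib, ← Finset.mul_sum] at h3
    have h4 : (∑ k ∈ Finset.range d, (k : ℝ)) = d * (d - 1) / 2 := by
      have h5 := Finset.sum_range_id_mul_two d
      have h6 : ((∑ k ∈ Finset.range d, k : ℕ) : ℝ) * 2 = d * (d - 1) := by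
        rw [← Nat.cast_ofNat (n := 2), ← Nat.cast_mul, h5, Nat.cast_mul, Nat.cast_sub hd,
          Nat.cast_one]
      rw [Nat.cast_sum] at h6
      linarith
    rw [h4] at h3
    simpa using h3
  set y : ℝ := (1 - x) * (x ^ d * (((d : ℝ) - 1) / 2)) with hy
  have hy0 : 0 ≤ y := by
    rw [hy]
    exact mul_nonneg hx.le (mul_nonneg (pow_nonneg h0 _) (by linarith))
  have hsum' : s ≤ d * (1 - y) := by
    rw [hy]
    nlinarith [hsum]
  have e2 : (d : ℝ) * (1 - x) * (1 - x ^ d)⁻¹ = d / s := by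
    rw [← e1]
    field_simp
  rw [e2, le_div_iff₀ hs0]
  calc (1 + y) * s ≤ (1 + y) * (d * (1 - y)) := mul_le_mul_of_nonneg_left hsum' (by linarith)
    _ = d * (1 - y ^ 2) := by ring
    _ ≤ d := by nlinarith [sq_nonneg y]

variable {a : ℕ} {G : Type} [Group G] [Fintype G] (ρ : G →* Gl a)
  (f : Fin a → MvPolynomial (Fin a) ℂ) (d : Fin a → ℕ)
  (hf : ∀ i, (f i).IsHomogeneous (d i)) (hd : ∀ i, 0 < d i)
  (hfi : ∀ i g, act (ρ g) (f i) = f i) (hind : AlgebraicIndependent ℂ f)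
  (c : G → Fin a → ℂ) (hc : ∀ g i, ‖c g i‖ = 1)
  (hτ : ∀ g, tau ((ρ g)⁻¹).val = ∏ i, PowerSeries.mk (fun k => c g i ^ k))

include hc hτ in
theorem hasSum_dimInv {x : ℝ} (h0 : 0 ≤ x) (h1 : x < 1) :
    HasSum (fun k => (dimInv ρ k : ℝ) * x ^ k)
      ((Fintype.card G : ℂ)⁻¹ * ∑ g, ∏ i, (1 - c g i * (x : ℂ))⁻¹).re := by
  have hE : ∀ g, Ev (tau ((ρ g)⁻¹).val) (x : ℂ) (∏ i, (1 - c g i * (x : ℂ))⁻¹) := by
    intro g
    rw [hτ g]
    refine Ev.prod _ _ _ fun i _ => Ev.geom ?_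
    rw [norm_mul, hc, one_mul, Complex.norm_real, Real.norm_eq_abs, abs_of_nonneg h0]
    exact h1
  have h2 := hasSum_sum (s := Finset.univ) fun g (_ : g ∈ Finset.univ) => (hE g).hasSum
  have h3 := h2.mul_left ((Fintype.card G : ℂ)⁻¹)
  have h4 := ((Complex.hasSum_iff _ _).1 h3).1
  have h5 : (fun k => ((Fintype.card G : ℂ)⁻¹ * ∑ g : G,
      PowerSeries.coeff k (tau ((ρ g)⁻¹).val) * (x : ℂ) ^ k).re) =
      fun k => (dimInv ρ k : ℝ) * x ^ k := by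
    funext k
    have h6 := dimInv_eq ρ k
    have h7 : (Fintype.card G : ℂ)⁻¹ * ∑ g : G,
        PowerSeries.coeff k (tau ((ρ g)⁻¹).val) * (x : ℂ) ^ k = ((dimInv ρ k * x ^ k : ℝ) : ℂ) := by
      rw [← Finset.sum_mul, ← mul_assoc]
      simp only [coeff_tau]
      rw [h6]
      push_cast
      rfl
    rw [h7, Complex.ofReal_re]
  rw [h5] at h4
  exact h4

include hd in
theorem hasSum_card {x : ℝ} (h0 : 0 ≤ x) (h1 : x < 1) :
    HasSum (fun k => (Fintype.card (J d k) : ℝ) * x ^ k) (∏ i, (1 - x ^ d i)⁻¹) := by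
  have hx : ‖(x : ℂ)‖ < 1 := by
    rw [Complex.norm_real, Real.norm_eq_abs, abs_of_nonneg h0]
    exact h1
  have hE : Ev (∏ i, gs (d i)) (x : ℂ) (∏ i, (1 - (x : ℂ) ^ d i)⁻¹) :=
    Ev.prod _ _ _ fun i _ => Ev.gs (hd i) hx
  have h4 := ((Complex.hasSum_iff _ _).1 hE.hasSum).1
  have h5 : (fun k => (PowerSeries.coeff k (∏ i, gs (d i)) * (x : ℂ) ^ k).re) =
      fun k => (Fintype.card (J d k) : ℝ) * x ^ k := by
    funext k
    rw [coeff_gs]
    have h6 : ((Fintype.card (J d k) : ℂ) * (x : ℂ) ^ k) =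
        (((Fintype.card (J d k) : ℝ) * x ^ k : ℝ) : ℂ) := by
      push_cast
      rfl
    rw [h6, Complex.ofReal_re]
  have h7 : (∏ i, (1 - (x : ℂ) ^ d i)⁻¹).re = ∏ i, (1 - x ^ d i)⁻¹ := by
    have h8 : (∏ i, (1 - (x : ℂ) ^ d i)⁻¹) = ((∏ i, (1 - x ^ d i)⁻¹ : ℝ) : ℂ) := by
      push_cast
      rfl
    rw [h8, Complex.ofReal_re]
  rw [h5, h7] at h4
  exact h4

include hf hd hfi hind hc hτ in
theorem main_ineq {x : ℝ} (h0 : 0 ≤ x) (h1 : x < 1) :
    (Fintype.card G : ℝ) * ∏ i, (1 - x ^ d i)⁻¹ ≤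
      (∑ g, ∏ i, (1 - c g i * (x : ℂ))⁻¹).re := by
  have h2 := hasSum_le (fun k => mul_le_mul_of_nonneg_right
    (Nat.cast_le (α := ℝ).2 (card_le_dimInv ρ f d hf hd hfi hind k)) (pow_nonneg h0 k))
    (hasSum_card d hd h0 h1) (hasSum_dimInv ρ c hc hτ h0 h1)
  have h3 : (0 : ℝ) < Fintype.card G := Nat.cast_pos.2 Fintype.card_pos
  have h4 : ((Fintype.card G : ℂ)⁻¹ * ∑ g, ∏ i, (1 - c g i * (x : ℂ))⁻¹).re =
      (Fintype.card G : ℝ)⁻¹ * (∑ g, ∏ i, (1 - c g i * (x : ℂ))⁻¹).re := by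
    have h5 : (Fintype.card G : ℂ)⁻¹ = (((Fintype.card G : ℝ)⁻¹ : ℝ) : ℂ) := by
      push_cast
      rfl
    rw [h5, Complex.re_ofReal_mul]
  rw [h4] at h2
  calc _ ≤ (Fintype.card G : ℝ) * ((Fintype.card G : ℝ)⁻¹ *
        (∑ g, ∏ i, (1 - c g i * (x : ℂ))⁻¹).re) := mul_le_mul_of_nonneg_left h2 h3.le
    _ = _ := by rw [← mul_assoc, mul_inv_cancel₀ h3.ne', one_mul]

end Pool.Agent.V5helper87.CM

end
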